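import Pool.Agent.J4H12.MX.Stm

/-!
# MX (PTA): the special case of Tate's theorem for profinite groups
-/

set_option autoImplicit false

universe u

namespace Pool.Agent.J4H31.MX

open Pool.Agent.J4H12.MX

theorem mem_of_cop {G : Type u} [Group G] (L : Subgroup G) (x : G) (m n : ℕ) (h : Nat.Coprime m n)
    (hm : x ^ m ∈ L) (hn : x ^ n ∈ L) : x ∈ L := by
  obtain ⟨a, b, hab⟩ := Nat.isCoprime_iff_coprime.2 h
  have h1 : x = (x ^ m) ^ a * (x ^ n) ^ b := by
    rw [← zpow_natCast x m, ← zpow_natCast x n, ← zpow_mul, ← zpow_mul, ← zpow_add]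
    conv_lhs => rw [← zpow_one x]
    congr 1
    linarith
  rw [h1]
  exact L.mul_mem (L.zpow_mem hm a) (L.zpow_mem hn b)

theorem step {G : Type u} [Group G] [TopologicalSpace G] [IsTopologicalGroup G] [CompactSpace G]
    [TotallyDisconnectedSpace G] (hT : S_TAT.{u}) (p : ℕ) (P N : Subgroup G) (hp : p.Prime) (hP : Syl p ⊤ P)
    (hN : ON N)
    (hM : ∀ M : Subgroup G, IsClosed (M : Set G) → M ≤ P → M.relIndex P = p → Nz P M → N ⊓ P ≤ M)
    (U : Subgroup G) (hU : ON U) (hUN : U ≤ N) :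
    ∃ L : Subgroup G, U ≤ L ∧ L ≤ N ∧ L.Normal ∧ (¬ p ∣ U.relIndex L) ∧ ∀ x ∈ N, ∃ k : ℕ, x ^ p ^ k ∈ L := by
  haveI := hU.1
  haveI := hN.1
  haveI : Finite (G ⧸ U) := Subgroup.quotient_finite_of_isOpen U hU.2
  set π : G →* G ⧸ U := QuotientGroup.mk' U with hπ
  have hker : π.ker = U := QuotientGroup.ker_mk' U
  have hsurj : Function.Surjective π := QuotientGroup.mk'_surjective U
  obtain ⟨K, hK1, hK2, hK3, hK4⟩ := hT (G ⧸ U) p (P.map π) (N.map π) hp (by
      rintro ⟨x, hx⟩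
      obtain ⟨y, hy, rfl⟩ := hx
      obtain ⟨k, hk⟩ := hP.prop y hy U hU
      refine ⟨k, ?_⟩
      rw [Subtype.ext_iff]
      show (π y) ^ p ^ k = 1
      rw [← map_pow, ← MonoidHom.mem_ker, hker]
      exact hk) (by
      have h1 := hP.idx U hU
      rw [Subgroup.relIndex_top_right] at h1
      rw [Subgroup.index_map, hker, MonoidHom.range_eq_top.2 hsurj, Subgroup.index_top, mul_one]
      exact h1) (hN.1.map π hsurj) (by
      intro M hM1 hM2 hM3
      have hclosed : IsClosed ((P ⊓ M.comap π : Subgroup G) : Set G) := by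
        rw [Subgroup.coe_inf]
        refine hP.closed.inter (Subgroup.isClosed_of_isOpen _ (Subgroup.isOpen_mono ?_ hU.2))
        intro x hx
        rw [Subgroup.mem_comap]
        have : π x = 1 := by rw [← MonoidHom.mem_ker, hker]; exact hx
        rw [this]
        exact M.one_mem
      have h2 := hM (P ⊓ M.comap π) hclosed inf_le_left (by
        rw [Subgroup.inf_relIndex_left, Subgroup.relIndex_comap]
        exact hM2) (by
        intro x hx m hm
        refine ⟨P.mul_mem (P.mul_mem hx hm.1) (P.inv_mem hx), ?_⟩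
        have h3 := hM3 (π x) ⟨x, hx, rfl⟩ (π m) hm.2
        show π (x * m * x⁻¹) ∈ M
        rw [map_mul, map_mul, map_inv]
        exact h3)
      rintro _ ⟨⟨y, hy, hxy⟩, ⟨z, hz, rfl⟩⟩
      have h3 : z ∈ N := by
        have h4 : y⁻¹ * z ∈ U := by
          rw [← hker, MonoidHom.mem_ker, map_mul, map_inv, hxy, inv_mul_cancel]
        have h5 : z = y * (y⁻¹ * z) := by group
        rw [h5]
        exact N.mul_mem hy (hUN h4)
      exact (h2 ⟨h3, hz⟩).2)
  refine ⟨K.comap π, ?_, ?_, hK1.comap π, ?_, ?_⟩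
  · intro x hx
    rw [Subgroup.mem_comap]
    have : π x = 1 := by rw [← MonoidHom.mem_ker, hker]; exact hx
    rw [this]
    exact K.one_mem
  · intro x hx
    obtain ⟨y, hy, hxy⟩ := hK2 hx
    have h4 : y⁻¹ * x ∈ U := by
      rw [← hker, MonoidHom.mem_ker, map_mul, map_inv, hxy, inv_mul_cancel]
    have h5 : x = y * (y⁻¹ * x) := by group
    rw [h5]
    exact N.mul_mem hy (hUN h4)
  · have h1 : U.relIndex (K.comap π) = Nat.card K := by
      have h2 : (⊥ : Subgroup (G ⧸ U)).comap π = U := hker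
      have h3 : U.relIndex (K.comap π) = ((⊥ : Subgroup (G ⧸ U)).comap π).relIndex (K.comap π) :=
        congrArg (fun V : Subgroup G => V.relIndex (K.comap π)) h2.symm
      rw [h3, Subgroup.relIndex_comap, Subgroup.map_comap_eq_self_of_surjective hsurj, Subgroup.relIndex_bot_left]
    rw [h1]
    exact hK3
  · intro x hx
    obtain ⟨k, hk⟩ := hK4 (π x) ⟨x, hx, rfl⟩
    refine ⟨k, ?_⟩
    rw [Subgroup.mem_comap, map_pow]
    exact hk

theorem t_PTA (hT : S_TAT.{u}) : S_PTA.{u} := by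
  classical
  intro G _ _ _ _ _ p P N hp hP hN hM
  choose! L hL1 hL2 hL3 hL4 hL5 using step hT p P N hp hP hN hM
  -- characterisation of `L U`
  have hA : ∀ U : Subgroup G, ON U → U ≤ N → ∀ x ∈ N, ∀ n : ℕ, Nat.Coprime p n → x ^ n ∈ U → x ∈ L U := by
    intro U hU hUN x hx n hn hxn
    obtain ⟨k, hk⟩ := hL5 U hU hUN x hx
    exact mem_of_cop (L U) x (p ^ k) n (Nat.Coprime.pow_left k hn) hk (hL1 U hU hUN hxn)
  have hB : ∀ U : Subgroup G, ON U → U ≤ N → ∀ x ∈ L U, ∃ n : ℕ, Nat.Coprime p n ∧ x ^ n ∈ U := by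
    intro U hU hUN x hx
    haveI := hU.1
    refine ⟨U.relIndex (L U), (Nat.Prime.coprime_iff_not_dvd hp).2 (hL4 U hU hUN), ?_⟩
    exact (U.subgroupOf (L U)).pow_index_mem ⟨x, hx⟩
  have hmono : ∀ U V : Subgroup G, ON U → ON V → U ≤ N → V ≤ U → L V ≤ L U := by
    intro U V hU hV hUN hVU x hx
    obtain ⟨n, hn, hxn⟩ := hB V hV (hVU.trans hUN) x hx
    exact hA U hU hUN x (hL2 V hV (hVU.trans hUN) hx) n hn (hVU hxn)
  have hlift : ∀ U V : Subgroup G, ON U → ON V → U ≤ N → V ≤ U → ∀ x ∈ L U, ∃ y ∈ L V, y⁻¹ * x ∈ U := by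
    intro U V hU hV hUN hVU x hx
    haveI := hV.1
    haveI := hU.1
    haveI : Finite (G ⧸ V) := Subgroup.quotient_finite_of_isOpen V hV.2
    have hM0 : V.index ≠ 0 := by
      rw [Subgroup.index]
      exact Nat.card_pos.ne'
    obtain ⟨j, b, hb, hjb⟩ := Nat.exists_eq_pow_mul_and_not_dvd hM0 p hp.ne_one
    have hxM : x ^ V.index ∈ V := V.pow_index_mem x
    have hpb : Nat.Coprime p b := (Nat.Prime.coprime_iff_not_dvd hp).2 hb
    obtain ⟨n, hn, hxn⟩ := hB U hU hUN x hx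
    have hxb : x ^ b ∈ U := by
      refine mem_of_cop U (x ^ b) (p ^ j) n (Nat.Coprime.pow_left j hn) ?_ ?_
      · rw [← pow_mul, mul_comm, ← hjb]
        exact hVU hxM
      · rw [← pow_mul, mul_comm, pow_mul]
        exact U.pow_mem hxn b
    obtain ⟨u, v, huv⟩ := Nat.isCoprime_iff_coprime.2 (Nat.Coprime.pow_left j hpb)
    refine ⟨x ^ (u * (p ^ j : ℕ) : ℤ), ?_, ?_⟩
    · refine hA V hV (hVU.trans hUN) _ (N.zpow_mem (hL2 U hU hUN hx) _) b hpb ?_
      have h1 : (x ^ (u * (p ^ j : ℕ) : ℤ)) ^ b = (x ^ V.index) ^ u := by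
        rw [← zpow_natCast _ b, ← zpow_natCast x V.index, ← zpow_mul, ← zpow_mul, hjb]
        congr 1
        push_cast
        ring
      rw [h1]
      exact V.zpow_mem hxM u
    · have h1 : (x ^ (u * (p ^ j : ℕ) : ℤ))⁻¹ * x = (x ^ b) ^ v := by
        rw [← zpow_natCast x b, ← zpow_mul, ← zpow_neg]
        conv_lhs => rw [← zpow_one x]
        rw [← zpow_mul, ← zpow_add]
        congr 1
        linarith
      rw [h1]
      exact U.zpow_mem hxb v
  set K : Subgroup G := ⨅ U : {U : Subgroup G // ON U ∧ U ≤ N}, L U.1 with hK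
  have hKle : ∀ U : Subgroup G, ON U → U ≤ N → K ≤ L U := fun U h1 h2 => iInf_le_of_le ⟨U, h1, h2⟩ le_rfl
  have hsup : ∀ U : Subgroup G, ON U → U ≤ N → L U ≤ K ⊔ U := by
    intro U hU hUN x hx
    have hon : ∀ V W : Subgroup G, ON V → ON W → ON (V ⊓ W) := by
      intro V W hV hW
      haveI := hV.1
      haveI := hW.1
      refine ⟨inferInstance, ?_⟩
      rw [Subgroup.coe_inf]
      exact hV.2.inter hW.2
    have hne : (⋂ V : {V : Subgroup G // ON V ∧ V ≤ U}, ((L V.1 : Set G) ∩ {y | y⁻¹ * x ∈ U})).Nonempty := by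
      haveI : Nonempty {V : Subgroup G // ON V ∧ V ≤ U} := ⟨⟨U, hU, le_rfl⟩⟩
      have hcl : ∀ V : {V : Subgroup G // ON V ∧ V ≤ U}, IsClosed ((L V.1 : Set G) ∩ {y | y⁻¹ * x ∈ U}) := by
        intro V
        refine IsClosed.inter (Subgroup.isClosed_of_isOpen _
          (Subgroup.isOpen_mono (hL1 V.1 V.2.1 (V.2.2.trans hUN)) V.2.1.2)) ?_
        exact (Subgroup.isClosed_of_isOpen _ hU.2).preimage (by fun_prop)
      apply IsCompact.nonempty_iInter_of_directed_nonempty_isCompact_isClosed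
      · rintro ⟨V, hV, hVU⟩ ⟨W, hW, hWU⟩
        refine ⟨⟨V ⊓ W, hon V W hV hW, inf_le_left.trans hVU⟩, ?_, ?_⟩
        · exact Set.inter_subset_inter_left _ (hmono V (V ⊓ W) hV (hon V W hV hW) (hVU.trans hUN) inf_le_left)
        · exact Set.inter_subset_inter_left _ (hmono W (V ⊓ W) hW (hon V W hV hW) (hWU.trans hUN) inf_le_right)
      · rintro ⟨V, hV, hVU⟩
        obtain ⟨y, hy1, hy2⟩ := hlift U V hU hV hUN hVU x hx
        exact ⟨y, hy1, hy2⟩
      · intro V
        exact (hcl V).isCompact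
      · exact hcl
    obtain ⟨y, hy⟩ := hne
    rw [Set.mem_iInter] at hy
    have h1 : y⁻¹ * x ∈ U := (hy ⟨U, hU, le_rfl⟩).2
    have h2 : y ∈ K := by
      rw [hK, Subgroup.mem_iInf]
      rintro ⟨W, hW, hWN⟩
      have h3 := (hy ⟨W ⊓ U, hon W U hW hU, inf_le_right⟩).1
      exact hmono W (W ⊓ U) hW (hon W U hW hU) hWN inf_le_left h3
    have h3 : x = y * (y⁻¹ * x) := by group
    rw [h3]
    exact Subgroup.mul_mem_sup h2 h1
  have honN : ∀ U : Subgroup G, ON U → ON (U ⊓ N) := by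
    intro U hU
    haveI := hU.1
    haveI := hN.1
    refine ⟨inferInstance, ?_⟩
    rw [Subgroup.coe_inf]
    exact hU.2.inter hN.2
  refine ⟨K, ?_, ?_, ?_, ?_, ?_⟩
  · rw [hK, Subgroup.coe_iInf]
    refine isClosed_iInter fun U => ?_
    exact Subgroup.isClosed_of_isOpen _ (Subgroup.isOpen_mono (hL1 U.1 U.2.1 U.2.2) U.2.1.2)
  · exact Subgroup.normal_iInf_normal fun U => hL3 U.1 U.2.1 U.2.2
  · exact (hKle N hN le_rfl).trans (hL2 N hN le_rfl)
  · rintro ⟨U, hU, hdvd⟩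
    have hV := honN U hU
    haveI := hV.1
    have h1 : p ∣ (U ⊓ N).relIndex K := hdvd.trans (Subgroup.relIndex_dvd_of_le_left K inf_le_left)
    apply hL4 (U ⊓ N) hV inf_le_right
    rw [← Subgroup.relIndex_sup_right] at h1
    rw [← Subgroup.relIndex_mul_relIndex (U ⊓ N) (K ⊔ (U ⊓ N)) (L (U ⊓ N)) le_sup_right
      (sup_le (hKle _ hV inf_le_right) (hL1 _ hV inf_le_right))]
    exact h1.mul_right _
  · intro x hx U hU
    have hV := honN U hU
    obtain ⟨k, hk⟩ := hL5 (U ⊓ N) hV inf_le_right x hx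
    refine ⟨k, ?_⟩
    have h1 := hsup (U ⊓ N) hV inf_le_right hk
    exact (sup_le_sup_left inf_le_left K : K ⊔ (U ⊓ N) ≤ K ⊔ U) h1

end Pool.Agent.J4H31.MX
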